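import Pool.Agent.X13.TT.Pent

/-!
# The triangular progression with the parts 1, 3, 5, 7
-/

namespace Pool.Agent.U289.Tri

open Finset PowerSeries Pool.Agent.X13.TT

/-- `T_{2j} = j(2j+1)` -/
def ta (j : ℕ) : ℕ := j * (2 * j + 1)
/-- `T_{2j+1} = (2j+1)(j+1)` -/
def tb (j : ℕ) : ℕ := (2 * j + 1) * (j + 1)

theorem ta_cast (j : ℕ) : (ta j : ℚ) = 2 * ((j : ℚ) + 1 / 2) ^ 2 - 1 * ((j : ℚ) + 1 / 2) + 0 := by
  unfold ta; push_cast; ring

theorem tb_cast (j : ℕ) : (tb j : ℚ) = 2 * ((j : ℚ) + 1 / 2) ^ 2 + 1 * ((j : ℚ) + 1 / 2) + 0 := by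
  unfold tb; push_cast; ring

theorem ta_mono : Monotone ta := fun i j h => by unfold ta; gcongr

theorem tb_mono : Monotone tb := fun i j h => by unfold tb; gcongr

theorem ta_ge (j : ℕ) : j ≤ ta j := by unfold ta; nlinarith

theorem ta_lt_tb (j : ℕ) : tb j = ta j + (2 * j + 1) := by unfold ta tb; ring

theorem tb_ge (j : ℕ) : j ≤ tb j := by unfold tb; nlinarith

theorem ta_succ (j : ℕ) : ta (j + 1) = tb j + (2 * j + 2) := by unfold ta tb; ring

theorem tb_le (j : ℕ) : tb j ≤ ta (j + 2) := by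
  have h1 := ta_succ j
  have h2 := ta_mono (show j + 1 ≤ j + 2 by omega)
  omega

theorem fin_tri (k K : ℕ) (hk : 1 ≤ k) (hkK : k < K) (hK : 6 ≤ K) :
    2 * (R4 2 84 (K + 1 + 1 / (2 * 2)) + 2288 * ((K : ℚ) + 1 - k)) <
      24 * 1 * k * ((2 * ((K : ℚ) + 1 / 2) ^ 2 - 1 * ((K : ℚ) + 1 / 2) + 16 / 2
          - 2 * ((k : ℚ) ^ 2 - 3 / 4)) ^ 2 - (2 ^ 2 - 1 ^ 2 / 3) * (k : ℚ) ^ 2
          + (2 ^ 2 - 1 ^ 2 / 4 - 84 / 12)) := by
  have habs : |(84 : ℚ) - 3 * 2 ^ 2| = 72 := by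
    rw [abs_of_pos (by norm_num)]; norm_num
  unfold R4
  rw [habs]
  rcases Nat.lt_or_ge k 3 with h | h
  · obtain ⟨y, rfl⟩ := Nat.exists_eq_add_of_le hK
    interval_cases k <;>
    · push_cast
      rw [← sub_pos]
      ring_nf
      positivity
  · rcases Nat.lt_or_ge k 5 with h5 | h5
    · obtain ⟨y, rfl⟩ := Nat.exists_eq_add_of_le hK
      interval_cases k <;>
      · push_cast
        rw [← sub_pos]
        ring_nf
        positivity
    · obtain ⟨x, rfl⟩ := Nat.exists_eq_add_of_le h5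
      obtain ⟨y, rfl⟩ := Nat.exists_eq_add_of_le (show 5 + x + 1 ≤ K by omega)
      push_cast
      rw [← sub_pos]
      ring_nf
      positivity

theorem check_tri : ∀ k ∈ List.range 6, 1 ≤ k →
    ((dps [1, 3, 5, 7] (thL ta tb k 78)).all fun x => decide (0 ≤ x)) = true := by
  decide +kernel

theorem tri_nonneg (k : ℕ) (hk : 1 ≤ k) : NN (th ta tb k * geoL [1, 3, 5, 7]) := by
  intro n
  set c : ℕ → ℤ := fun m => coeff m (geoL [1, 3, 5, 7]) with hc
  have hab' : ∀ j, ta j ≤ tb j := fun j => by have := ta_lt_tb j; omega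
  rcases Nat.lt_or_ge n (ta (k + 1)) with h1 | h1
  · rw [coeff_th_mul ta tb ta_ge tb_ge k n (n + 1) le_rfl,
      sum_small _ ta tb ta_mono hab' k n (n + 1) (by omega) h1]
    have hg : geoL [1, 3, 5, 7] = geo 3 * geo 5 * geo 7 * geo 1 := by
      simp only [geoL, mul_one]; ring
    rw [hg]
    have hNN : NN (geo 3 * geo 5 * geo 7) := ((NN.geo 3).mul (NN.geo 5)).mul (NN.geo 7)
    exact ext_sub_nonneg _ (mono_one hNN) ((hNN.mul (NN.geo 1)) 0) n _ _ (hab' k)
  · rcases Nat.lt_or_ge n 78 with h2 | h2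
    · have hk7 : k < 6 := by
        by_contra hcon
        have : ta 6 ≤ ta (k + 1) := ta_mono (by omega)
        have h77 : ta 6 = 78 := by decide
        omega
      exact coeff_of_check ta tb _ (by simp) k 78 (check_tri k (List.mem_range.mpr hk7) hk) n h2
    · rw [coeff_th_mul ta tb ta_ge tb_ge k n (n + 1) le_rfl]
      refine (pos_main 2 1 0 84 16 2288 105 _ (by norm_num) (by norm_num)
        (by norm_num) (by norm_num) (by norm_num) (by norm_num) ?_ ta tb ta_cast tb_cast ta_ge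
        tb_ge ta_mono tb_mono tb_le 6 (by norm_num) (by norm_num) (by norm_num)
        (fun k K a b c => fin_tri k K a b c) k n (n + 1) hk (by
          have h77 : ta 6 = 78 := by decide
          omega) h1 le_rfl).le
      intro m
      have := noise_to_rat 1 3 5 7 2288 (fun m => by exact_mod_cast noise_1357 m) m
      norm_num at this
      rw [show (48 : ℚ) * 105 = 5040 by norm_num]
      exact this

end Pool.Agent.U289.Tri
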